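import Pool.Agent.Helper43.AX.St
import Pool.Agent.Helper60.DZ2.M_Red

/-!
# Project AX (MP_b3ce06_al), module FI: the group is finite
-/

set_option autoImplicit false

namespace Pool.Agent.Helper21.AX

open Pool.Agent.Helper43.AX

/-- a group in which every element is in a finite metacyclic normal form is finite -/
theorem finite_of_two {Q : Type} [Group Q] (T K : Q) (M p m : ℕ) (hM : 0 < M) (hp : 0 < p)
    (hT : T ^ M = 1) (hK : K ^ p = 1) (hc : K⁻¹ * T * K = T ^ m)
    (hall : Subgroup.closure {T, K} = (⊤ : Subgroup Q)) : Finite Q := by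
  -- powers
  have h1 : ∀ j : ℕ, (K ^ j)⁻¹ * T * K ^ j = T ^ (m ^ j) := by
    intro j
    induction j with
    | zero => simp
    | succ j ih =>
      have e1 : (K ^ (j + 1))⁻¹ * T * K ^ (j + 1) = K⁻¹ * ((K ^ j)⁻¹ * T * K ^ j) * K := by
        rw [pow_succ]
        group
      have e2 : K⁻¹ * T ^ (m ^ j) * K = (K⁻¹ * T * K) ^ (m ^ j) := by
        have := (conj_pow (a := K⁻¹) (b := T) (i := m ^ j))
        rw [inv_inv] at this
        exact this.symm
      rw [e1, ih, e2, hc, ← pow_mul, pow_succ, mul_comm]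
  obtain ⟨e, hKi⟩ : ∃ e : ℕ, K * T * K⁻¹ = T ^ e := by
    refine ⟨m ^ (p - 1), ?_⟩
    have h2 := h1 (p - 1)
    have h3 : K ^ (p - 1) = K⁻¹ := by
      rw [eq_inv_iff_mul_eq_one, ← pow_succ, Nat.sub_add_cancel hp, hK]
    rw [h3, inv_inv] at h2
    exact h2
  have h4 : ∀ j : ℕ, K ^ j * T = T ^ (e ^ j) * K ^ j := by
    intro j
    induction j with
    | zero => simp
    | succ j ih =>
      have e3 : K * T ^ (e ^ j) = T ^ (e ^ (j + 1)) * K := by
        have h5 : K * T ^ (e ^ j) * K⁻¹ = (K * T * K⁻¹) ^ (e ^ j) := (conj_pow).symm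
        rw [hKi, ← pow_mul] at h5
        rw [← mul_inv_eq_iff_eq_mul, h5, pow_succ, mul_comm]
      calc K ^ (j + 1) * T = K * (K ^ j * T) := by rw [pow_succ', mul_assoc]
        _ = K * T ^ (e ^ j) * K ^ j := by rw [ih, mul_assoc]
        _ = T ^ (e ^ (j + 1)) * K ^ (j + 1) := by rw [e3, pow_succ' K, mul_assoc]
  set R : Q → Prop := fun x => ∃ i j : ℕ, x = T ^ i * K ^ j with hR
  have hRT : ∀ x, R x → R (x * T) := by
    rintro x ⟨i, j, rfl⟩
    refine ⟨i + e ^ j, j, ?_⟩
    rw [mul_assoc, h4, ← mul_assoc, ← pow_add]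
  have hRK : ∀ x, R x → R (x * K) := by
    rintro x ⟨i, j, rfl⟩
    exact ⟨i, j + 1, by rw [mul_assoc, ← pow_succ]⟩
  have hRTn : ∀ (n : ℕ) (x : Q), R x → R (x * T ^ n) := by
    intro n
    induction n with
    | zero => intro x hx; simpa using hx
    | succ n ih =>
      intro x hx
      rw [pow_succ, ← mul_assoc]
      exact hRT _ (ih x hx)
  have hRKn : ∀ (n : ℕ) (x : Q), R x → R (x * K ^ n) := by
    intro n
    induction n with
    | zero => intro x hx; simpa using hx
    | succ n ih =>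
      intro x hx
      rw [pow_succ, ← mul_assoc]
      exact hRK _ (ih x hx)
  have hTi : T⁻¹ = T ^ (M - 1) := by
    symm
    rw [eq_inv_iff_mul_eq_one, ← pow_succ, Nat.sub_add_cancel hM, hT]
  have hKi2 : K⁻¹ = K ^ (p - 1) := by
    symm
    rw [eq_inv_iff_mul_eq_one, ← pow_succ, Nat.sub_add_cancel hp, hK]
  have hRall : ∀ x : Q, R x := by
    intro x
    have hx : x ∈ Subgroup.closure {T, K} := by rw [hall]; exact Subgroup.mem_top x
    refine Subgroup.closure_induction_right (p := fun x _ => R x) ?_ ?_ ?_ hx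
    · exact ⟨0, 0, by simp⟩
    · intro x hx y hy h
      rcases hy with rfl | hy
      · exact hRT _ h
      · rw [Set.mem_singleton_iff] at hy
        rw [hy]
        exact hRK _ h
    · intro x hx y hy h
      rcases hy with rfl | hy
      · rw [hTi]
        exact hRTn _ _ h
      · rw [Set.mem_singleton_iff] at hy
        rw [hy, hKi2]
        exact hRKn _ _ h
  have hsurj : Function.Surjective (fun z : Fin M × Fin p => T ^ (z.1 : ℕ) * K ^ (z.2 : ℕ)) := by
    intro x
    obtain ⟨i, j, rfl⟩ := hRall x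
    refine ⟨(⟨i % M, Nat.mod_lt _ hM⟩, ⟨j % p, Nat.mod_lt _ hp⟩), ?_⟩
    have h6 : T ^ (i % M) = T ^ i := by
      conv_rhs => rw [← Nat.mod_add_div i M, pow_add, pow_mul, hT, one_pow, mul_one]
    have h7 : K ^ (j % p) = K ^ j := by
      conv_rhs => rw [← Nat.mod_add_div j p, pow_add, pow_mul, hK, one_pow, mul_one]
    simp only [h6, h7]
  exact Finite.of_surjective _ hsurj

/-- FI. -/
theorem hFI (hHN : StHN) : StFI := by
  intro p q hp G _ a b t l L _ x E σ hC hgen hperf hfin
  obtain ⟨hnorm, ha, hb, ht⟩ := hHN p q G a b t l L x E σ hC hgen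
  have hH : Finite (Hs a b E) := Pool.Agent.Helper60.DZ2.Red_schur hperf
  have := hnorm
  have hv : a * b * a ∈ Hs a b E := mul_mem (mul_mem ha hb) ha
  have hlp : l ^ p ∈ Hs a b E := by
    rw [← hC.rel.vv]
    exact mul_mem hv hv
  have hmk : ∀ g : G, g ∈ Hs a b E → (g : G ⧸ Hs a b E) = 1 := fun g hg =>
    (QuotientGroup.eq_one_iff g).2 hg
  have hQ : Finite (G ⧸ Hs a b E) := by
    refine finite_of_two (t : G ⧸ Hs a b E) (l : G ⧸ Hs a b E) (q ^ p + 1) p (q ^ 2)
      (Nat.succ_pos _) hp ?_ ?_ ?_ ?_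
    · rw [← QuotientGroup.mk_pow]
      exact hmk _ ht
    · rw [← QuotientGroup.mk_pow]
      exact hmk _ hlp
    · rw [← QuotientGroup.mk_inv, ← QuotientGroup.mk_mul, ← QuotientGroup.mk_mul,
        ← QuotientGroup.mk_pow, hC.rel.lt]
    · rw [eq_top_iff]
      intro y _
      obtain ⟨g, rfl⟩ := QuotientGroup.mk_surjective y
      have hg : g ∈ Subgroup.closure {a, b, t, l} := by rw [hgen]; exact Subgroup.mem_top g
      have hle : Subgroup.closure {a, b, t, l} ≤
          (Subgroup.closure {(t : G ⧸ Hs a b E), (l : G ⧸ Hs a b E)}).comap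
            (QuotientGroup.mk' (Hs a b E)) := by
        rw [Subgroup.closure_le]
        intro z hz
        rw [SetLike.mem_coe, Subgroup.mem_comap, QuotientGroup.mk'_apply]
        simp only [Set.mem_insert_iff, Set.mem_singleton_iff] at hz
        rcases hz with hz | hz | hz | hz
        · rw [hz, hmk _ ha]
          exact one_mem _
        · rw [hz, hmk _ hb]
          exact one_mem _
        · rw [hz]; exact Subgroup.subset_closure (Or.inl rfl)
        · rw [hz]; exact Subgroup.subset_closure (Or.inr rfl)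
      exact hle hg
  exact Finite.of_equiv _ (Subgroup.groupEquivQuotientProdSubgroup (s := Hs a b E)).symm

end Pool.Agent.Helper21.AX
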